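import Pool.Agent.T9h51.CH.One

/-!
# All small perturbations of the polynomial and all small polynomial factors at once
-/

set_option autoImplicit false

namespace Pool.Agent.T9h51.CH

open Finset Polynomial
open Pool.Agent.TH872.Sq
open Pool.Agent.W93.LM (Nice)

/-- the polynomial with the coefficients `u` -/
noncomputable def pol {m : ℕ} (u : Fin m → ℤ) : ℤ[X] := ∑ i : Fin m, C (u i) * X ^ (i : ℕ)

lemma pol_coeff {m : ℕ} (u : Fin m → ℤ) (n : ℕ) (hn : m ≤ n) : (pol u).coeff n = 0 := by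
  unfold pol
  rw [finsetSum_coeff]
  apply sum_eq_zero
  intro i _
  rw [coeff_C_mul, coeff_X_pow, if_neg (by have := i.2; omega), mul_zero]

lemma pol_degree {m : ℕ} (u : Fin m → ℤ) : (pol u).natDegree ≤ m := by
  rw [natDegree_le_iff_coeff_eq_zero]
  intro n hn
  exact pol_coeff u n hn.le

lemma pol_eval {m : ℕ} (u : Fin m → ℤ) (x : ℤ) : (pol u).eval x = ∑ i : Fin m, u i * x ^ (i : ℕ) := by
  unfold pol
  rw [eval_finsetSum]
  apply sum_congr rfl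
  intro i _
  simp

lemma pol_bound {m : ℕ} (u : Fin (m + 1) → ℤ) (b k n H : ℕ) (hb : 1 ≤ b) (hn : n < b ^ k) (hu : ∀ i, |u i| ≤ (H : ℤ)) :
    |(pol u).eval (n : ℤ)| ≤ ((m + 1) * H : ℕ) * (b : ℤ) ^ (m * k) := by
  rw [pol_eval]
  refine (abs_sum_le_sum_abs _ _).trans ?_
  have h1 : ∀ i ∈ (univ : Finset (Fin (m + 1))), |u i * (n : ℤ) ^ (i : ℕ)| ≤ (H : ℤ) * (b : ℤ) ^ (m * k) := by
    intro i _
    rw [abs_mul, abs_of_nonneg (by positivity : (0 : ℤ) ≤ (n : ℤ) ^ (i : ℕ))]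
    apply mul_le_mul (hu i) _ (by positivity) (by positivity)
    have h2 : (n : ℤ) ≤ (b : ℤ) ^ k := by exact_mod_cast hn.le
    calc (n : ℤ) ^ (i : ℕ) ≤ ((b : ℤ) ^ k) ^ (i : ℕ) := pow_le_pow_left₀ (Int.natCast_nonneg _) h2 _
      _ = (b : ℤ) ^ (k * (i : ℕ)) := by rw [← pow_mul]
      _ ≤ (b : ℤ) ^ (m * k) := by
          apply pow_le_pow_right₀ (by exact_mod_cast hb)
          rw [mul_comm m k]
          exact Nat.mul_le_mul_left _ (by have := i.2; omega)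
  refine (sum_le_sum h1).trans (le_of_eq ?_)
  rw [sum_const, card_univ, Fintype.card_fin, nsmul_eq_mul]
  push_cast
  ring

lemma pow_small (b A d : ℕ) (hb : 2 ≤ b) : ∃ K₀ : ℕ, ∀ k : ℕ, K₀ ≤ k → d * k ^ A ≤ b ^ k := by
  have h1 := tendsto_pow_const_div_const_pow_of_one_lt A (show (1 : ℝ) < b by exact_mod_cast (by omega : 1 < b))
  have h2 := h1.eventually_lt_const (show (0 : ℝ) < 1 / (d + 1) by positivity)
  obtain ⟨K, hK⟩ := Filter.eventually_atTop.1 h2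
  refine ⟨K, fun k hk => ?_⟩
  have h3 := hK k hk
  have hbk : (0 : ℝ) < (b : ℝ) ^ k := by
    have : (0 : ℝ) < b := by exact_mod_cast (by omega : 0 < b)
    positivity
  rw [div_lt_div_iff₀ hbk (by positivity), one_mul] at h3
  have h4 : (d : ℝ) * (k : ℝ) ^ A ≤ (b : ℝ) ^ k := by
    have : (0 : ℝ) ≤ (k : ℝ) ^ A := by positivity
    nlinarith
  exact_mod_cast h4

open Classical in
/-- **All small factors, all small perturbations, all initial segments and progressions at once.** -/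
theorem main (b : ℕ) (hb : 2 ≤ b) (j : ℕ) (κ : ℤ) (hκ : κ ≠ 0) (f₀ : ℕ → ℝ) (hf₀ : Nice (fun n => ((f₀ n : ℝ) : ℂ)))
    (ρ : Type) [Fintype ρ] [DecidableEq ρ] (B A U : ℕ) : ∃ K₀ : ℕ, ∀ k : ℕ, K₀ ≤ k → ∀ D : ℕ → Finset ℕ, (∀ i < k, D i ⊆ range b ∧ 2 ≤ (D i).card) →
    ∀ φ : ℤ[X], φ.natDegree ≤ j + 2 → φ.coeff (j + 2) = κ →
    (∀ n < b ^ k, |φ.eval (n : ℤ)| ≤ (B : ℤ) * (b : ℤ) ^ ((j + 2) * k)) → ∀ X : ℕ, X ≤ B * b ^ ((j + 2) * k) →
    ∀ w : (ρ → ℤ) → ℕ → ℝ, (∀ u n, |w u n| ≤ 1) →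
    (((Icc (-(X : ℤ)) X).filter (fun c : ℤ => ∃ (u : ρ → ℤ) (v : Fin (j + 2) → ℤ), (∀ i, |u i| ≤ ((k ^ A : ℕ) : ℤ)) ∧
      (∀ i, |v i| ≤ ((k ^ A : ℕ) : ℤ)) ∧ ∃ Y q a : ℕ, Y ≤ b ^ k ∧ 1 ≤ q ∧ q ≤ k ^ A ∧
      ((SD b D k).card : ℝ) / (k : ℝ) ^ U < |∑ n ∈ (SD b D k).filter (fun n => n < Y ∧ n % q = a),
        w u n * ev f₀ ((φ + pol v).eval (n : ℤ) + c)|)).card : ℝ) ≤
      ((b ^ ((j + 2) * k) : ℕ) : ℝ) / (k : ℝ) ^ U := by
  obtain ⟨U', hU'⟩ : ∃ U', U' = U + (A + 2) * (Fintype.card ρ + (j + 2)) := ⟨_, rfl⟩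
  obtain ⟨W, K1, h1⟩ := uniformize b hb A U'
  obtain ⟨K2, h2⟩ := nice_ev b hb j κ hκ f₀ hf₀ (B + 1) (B + 1) W
  obtain ⟨K3, h3⟩ := pow_small b A (j + 2) hb
  refine ⟨K1 + K2 + K3 + 2, fun k hk D hD φ hφd hφκ hφB X hX w hw => ?_⟩
  have hk2 : (2 : ℝ) ≤ k := by exact_mod_cast (by omega : 2 ≤ k)
  have hk0 : (0 : ℝ) < k := by linarith
  have hk1 : (1 : ℝ) ≤ k := by linarith
  have hS := SD_card_pos b hb D k hD
  have hf1 : ∀ n, |f₀ n| ≤ 1 := by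
    intro n
    have := hf₀.1 n
    rwa [Complex.norm_real, Real.norm_eq_abs] at this
  have hev : ∀ x, |ev f₀ x| ≤ 1 := by
    intro x
    unfold ev
    split_ifs
    · simp
    · exact hf1 _
  obtain ⟨Bx, hBx⟩ : ∃ Bx : ℕ → Finset ℤ, ∀ m, Bx m = Icc (-((k ^ A : ℕ) : ℤ)) ((k ^ A : ℕ) : ℤ) := ⟨_, fun _ => rfl⟩
  obtain ⟨Pr, hPr⟩ : ∃ Pr : Finset ((ρ → ℤ) × (Fin (j + 2) → ℤ)), Pr =
      (Fintype.piFinset (fun _ : ρ => Bx 0)) ×ˢ (Fintype.piFinset (fun _ : Fin (j + 2) => Bx 0)) := ⟨_, rfl⟩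
  obtain ⟨Qf, hQf⟩ : ∃ Qf : (ρ → ℤ) × (Fin (j + 2) → ℤ) → ℤ → Prop, ∀ t c, Qf t c ↔ ∃ Y q a : ℕ, Y ≤ b ^ k ∧ 1 ≤ q ∧ q ≤ k ^ A ∧
      ((SD b D k).card : ℝ) / (k : ℝ) ^ U' < |∑ n ∈ (SD b D k).filter (fun n => n < Y ∧ n % q = a),
        w t.1 n * ev f₀ ((φ + pol t.2).eval (n : ℤ) + c)| := ⟨_, fun _ _ => Iff.rfl⟩
  have hone : ∀ t ∈ Pr, (((Icc (-(X : ℤ)) X).filter (Qf t)).card : ℝ) ≤ ((b ^ ((j + 2) * k) : ℕ) : ℝ) / (k : ℝ) ^ U' := by
    intro t ht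
    rw [hPr, mem_product, Fintype.mem_piFinset, Fintype.mem_piFinset] at ht
    have hv : ∀ i, |t.2 i| ≤ ((k ^ A : ℕ) : ℤ) := by
      intro i
      have := ht.2 i
      rw [hBx, mem_Icc] at this
      rw [abs_le]
      exact this
    refine h1 k (by omega) D hD ℤ (Icc (-(X : ℤ)) X)
      (fun c n => w t.1 n * ev f₀ ((φ + pol t.2).eval (n : ℤ) + c)) ?_ _ (Nat.cast_nonneg _) ?_ (Qf t) ?_
    · intro c n
      rw [abs_mul]
      calc |w t.1 n| * |ev f₀ ((φ + pol t.2).eval (n : ℤ) + c)| ≤ 1 * 1 :=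
            mul_le_mul (hw _ n) (hev _) (abs_nonneg _) (by norm_num)
        _ = 1 := by norm_num
    · intro G hG
      have h4 := h2 k (by omega) D hD (φ + pol t.2) ((natDegree_add_le _ _).trans (max_le hφd (pol_degree t.2)))
        (by rw [coeff_add, hφκ, pol_coeff t.2 _ le_rfl, add_zero]) (by
          intro n hn
          rw [eval_add]
          refine (abs_add_le _ _).trans ?_
          have h5 := hφB n hn
          have h6 := pol_bound (m := j + 1) t.2 b k n (k ^ A) (by omega) hn hv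
          have h7 : (((j + 1 + 1) * k ^ A : ℕ) : ℤ) * (b : ℤ) ^ ((j + 1) * k) ≤ (b : ℤ) ^ ((j + 2) * k) := by
            have h8 := h3 k (by omega)
            have h9 : (((j + 1 + 1) * k ^ A : ℕ) : ℤ) ≤ (b : ℤ) ^ k := by exact_mod_cast h8
            calc (((j + 1 + 1) * k ^ A : ℕ) : ℤ) * (b : ℤ) ^ ((j + 1) * k) ≤ (b : ℤ) ^ k * (b : ℤ) ^ ((j + 1) * k) :=
                  mul_le_mul_of_nonneg_right h9 (by positivity)
              _ = _ := by rw [← pow_add]; congr 1; ring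
          push_cast at h5 h6 h7 ⊢
          linarith) X (by
          refine hX.trans (Nat.mul_le_mul_right _ (by omega))) (fun n => G n * w t.1 n) (by
          intro n
          rw [abs_mul]
          calc |G n| * |w t.1 n| ≤ 1 * 1 := mul_le_mul (hG n) (hw _ n) (abs_nonneg _) (by norm_num)
            _ = 1 := by norm_num)
      refine le_trans (le_of_eq ?_) h4
      apply sum_congr rfl
      intro c _
      congr 2
      apply sum_congr rfl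
      intro n _
      ring
    · intro c _ hc
      exact (hQf t c).1 hc
  have hcov : ((Icc (-(X : ℤ)) X).filter (fun c : ℤ => ∃ (u : ρ → ℤ) (v : Fin (j + 2) → ℤ), (∀ i, |u i| ≤ ((k ^ A : ℕ) : ℤ)) ∧
      (∀ i, |v i| ≤ ((k ^ A : ℕ) : ℤ)) ∧ ∃ Y q a : ℕ, Y ≤ b ^ k ∧ 1 ≤ q ∧ q ≤ k ^ A ∧
      ((SD b D k).card : ℝ) / (k : ℝ) ^ U < |∑ n ∈ (SD b D k).filter (fun n => n < Y ∧ n % q = a),
        w u n * ev f₀ ((φ + pol v).eval (n : ℤ) + c)|)) ⊆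
      Pr.biUnion (fun t => (Icc (-(X : ℤ)) X).filter (Qf t)) := by
    intro c hc
    rw [mem_filter] at hc
    obtain ⟨hc1, u, v, hu, hv, Y, q, a, hY, hq1, hq2, hlt⟩ := hc
    rw [mem_biUnion]
    refine ⟨(u, v), ?_, ?_⟩
    · rw [hPr, mem_product, Fintype.mem_piFinset, Fintype.mem_piFinset]
      constructor
      · intro i
        rw [hBx, mem_Icc]
        exact abs_le.1 (hu i)
      · intro i
        rw [hBx, mem_Icc]
        exact abs_le.1 (hv i)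
    · rw [mem_filter]
      refine ⟨hc1, (hQf _ _).2 ⟨Y, q, a, hY, hq1, hq2, lt_of_le_of_lt ?_ hlt⟩⟩
      apply div_le_div_of_nonneg_left hS.le (by positivity)
      exact pow_le_pow_right₀ hk1 (by omega)
  have hcard : (Pr.card : ℝ) ≤ (k : ℝ) ^ ((A + 2) * (Fintype.card ρ + (j + 2))) := by
    have e1 : Pr.card = (2 * k ^ A + 1) ^ (Fintype.card ρ + (j + 2)) := by
      rw [hPr, card_product, Fintype.card_piFinset, Fintype.card_piFinset, prod_const, prod_const, card_univ, card_univ,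
        Fintype.card_fin, ← pow_add, hBx, Int.card_Icc]
      congr 1
      omega
    have e2 : 2 * k ^ A + 1 ≤ k ^ (A + 2) := by
      have h4 : 1 ≤ k ^ A := Nat.one_le_pow _ _ (by omega)
      have h5 : 4 ≤ k ^ 2 := by nlinarith [show 2 ≤ k by omega]
      calc 2 * k ^ A + 1 ≤ k ^ A * 4 := by omega
        _ ≤ k ^ A * k ^ 2 := Nat.mul_le_mul_left _ h5
        _ = _ := by rw [← pow_add]
    have e3 : Pr.card ≤ k ^ ((A + 2) * (Fintype.card ρ + (j + 2))) := by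
      rw [e1, pow_mul]
      exact Nat.pow_le_pow_left e2 _
    exact_mod_cast e3
  have h5 : (((Icc (-(X : ℤ)) X).filter (fun c : ℤ => ∃ (u : ρ → ℤ) (v : Fin (j + 2) → ℤ), (∀ i, |u i| ≤ ((k ^ A : ℕ) : ℤ)) ∧
      (∀ i, |v i| ≤ ((k ^ A : ℕ) : ℤ)) ∧ ∃ Y q a : ℕ, Y ≤ b ^ k ∧ 1 ≤ q ∧ q ≤ k ^ A ∧
      ((SD b D k).card : ℝ) / (k : ℝ) ^ U < |∑ n ∈ (SD b D k).filter (fun n => n < Y ∧ n % q = a),
        w u n * ev f₀ ((φ + pol v).eval (n : ℤ) + c)|)).card : ℝ) ≤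
      ∑ t ∈ Pr, (((Icc (-(X : ℤ)) X).filter (Qf t)).card : ℝ) := by
    have h6 := (card_le_card hcov).trans card_biUnion_le
    exact_mod_cast h6
  refine h5.trans ((sum_le_sum hone).trans ?_)
  rw [sum_const, nsmul_eq_mul, hU', pow_add, ← div_div]
  obtain ⟨z, hz⟩ : ∃ z : ℝ, z = ((b ^ ((j + 2) * k) : ℕ) : ℝ) / (k : ℝ) ^ U := ⟨_, rfl⟩
  have hz0 : 0 ≤ z := by rw [hz]; positivity
  rw [← hz]
  calc (Pr.card : ℝ) * (z / (k : ℝ) ^ ((A + 2) * (Fintype.card ρ + (j + 2)))) ≤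
      (k : ℝ) ^ ((A + 2) * (Fintype.card ρ + (j + 2))) * (z / (k : ℝ) ^ ((A + 2) * (Fintype.card ρ + (j + 2)))) :=
        mul_le_mul_of_nonneg_right hcard (by positivity)
    _ = z := by
        have := (pow_pos hk0 ((A + 2) * (Fintype.card ρ + (j + 2)))).ne'
        field_simp

end Pool.Agent.T9h51.CH
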