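import Pool.Agent.T9h51.PD.Energy
import Pool.Agent.TH872.Sq.W19

/-!
# Sums over integers with restricted digits of a bounded multiplicative function at the values of a polynomial, on average over
the constant term
-/

set_option autoImplicit false

namespace Pool.Agent.T9h51.CH

open Finset Polynomial
open Pool.Agent.TH872.Sq
open Pool.Agent.H807R2.Dav
open Pool.Agent.H373R2.T7
open Pool.Agent.W93.DG
open Pool.Agent.W93.LM (Nice)

/-- one shift, arbitrary coefficients, polynomials of degree `j + 2` -/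
theorem core (b : ℕ) (hb : 2 ≤ b) (η : ℝ) (hη : 0 < η) (j : ℕ) (κ : ℤ) (hκ : κ ≠ 0) (B F₀ U : ℕ) :
    ∃ U0 K₀ : ℕ, ∀ k : ℕ, K₀ ≤ k → ∀ w : ℕ → ℕ → ℝ, Dig b η w → ∀ i : ℕ, ∀ φ : ℤ[X], φ.natDegree ≤ j + 2 → φ.coeff (j + 2) = κ →
    (∀ n < b ^ k, |φ.eval (n : ℤ)| ≤ (B : ℤ) * (b : ℤ) ^ ((j + 2) * k)) → ∀ X : ℕ, X ≤ F₀ * b ^ ((j + 2) * k) →
    ∀ f : ℕ → ℝ, (∀ n, |f n| ≤ 1) →
    (∀ α : ℝ, ‖∑ n ∈ Icc 1 ((F₀ + B + 1) * b ^ ((j + 2) * k)), ((f n : ℝ) : ℂ) * ee ((n : ℝ) * α)‖ ≤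
      (((F₀ + B + 1) * b ^ ((j + 2) * k) : ℕ) : ℝ) / (k : ℝ) ^ U0) →
    ∀ G : ℕ → ℝ, (∀ n, |G n| ≤ 1) →
    ∑ c ∈ Icc (-(X : ℤ)) X, |∑ n ∈ range (b ^ k), P b w i k n * (G n * cut f ((F₀ + B + 1) * b ^ ((j + 2) * k)) (φ.eval (n : ℤ) + c))| ≤
      ((b ^ ((j + 2) * k) : ℕ) : ℝ) / (k : ℝ) ^ U := by
  obtain ⟨F₁, hF₁⟩ : ∃ F₁ : ℕ, F₁ = F₀ + B + 1 := ⟨_, rfl⟩
  obtain ⟨F, hF⟩ : ∃ F : ℕ, F = 2 * (F₁ + B) + 1 := ⟨_, rfl⟩
  obtain ⟨q, C, hq1, hC0, hmom⟩ := Pool.Agent.T9h51.PD.moment b hb η hη j κ hκ F (by omega)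
  obtain ⟨V, hV⟩ : ∃ V : ℕ, V = U + 1 := ⟨_, rfl⟩
  obtain ⟨K2, hK2⟩ := exists_nat_ge ((2 * F₀ + 1 : ℝ) * F₁ * (1 + C * F₁))
  rw [← hF₁]
  refine ⟨q * V + U + 1, K2 + 1, fun k hk w hw i φ hφd hφκ hφB X hX f hf1 hfs G hG => ?_⟩
  obtain ⟨Y, hY⟩ : ∃ Y, Y = b ^ ((j + 2) * k) := ⟨_, rfl⟩
  have hY1 : 1 ≤ Y := by rw [hY]; exact Nat.one_le_pow _ _ (by omega)
  obtain ⟨N, hN⟩ : ∃ N, N = F₁ * Y := ⟨_, rfl⟩
  rw [← hY, ← hN] at hfs ⊢
  rw [← hY] at hX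
  obtain ⟨R, hR⟩ : ∃ R, R = (F₁ + B) * Y := ⟨_, rfl⟩
  obtain ⟨M, hM⟩ : ∃ M, M = 2 * R + 1 := ⟨_, rfl⟩
  have hNY : Y ≤ N := by rw [hN]; exact Nat.le_mul_of_pos_left _ (by omega)
  have hNR : N ≤ R := by rw [hN, hR]; exact Nat.mul_le_mul_right _ (by omega)
  have hNM : N ≤ M := by omega
  have hMY : Y ≤ M := by omega
  have hMF : M ≤ F * Y := by
    rw [hM, hR, hF]
    nlinarith
  have hkr : (0 : ℝ) < k := by exact_mod_cast (by omega : 0 < k)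
  have hk1 : (1 : ℝ) ≤ k := by exact_mod_cast (by omega : 1 ≤ k)
  have hφ : ∀ n ∈ range (b ^ k), |φ.eval (n : ℤ)| + N ≤ R := by
    intro n hn
    have h1 := hφB n (mem_range.1 hn)
    rw [hR, hN, hY]
    push_cast
    linarith
  have hS : ∀ t ∈ range M, ‖FF f N M t‖ ≤ (N : ℝ) / (k : ℝ) ^ (q * V + U + 1) := fun t _ => hfs _
  have hmom' := hmom k M (by rw [← hY]; exact hMY) (by rw [← hY]; exact hMF) w hw i φ hφd hφκ
  have key := second_le (range (b ^ k)) (fun n => P b w i k n) (fun n => P b w i k n * G n) (by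
      intro n _
      rw [abs_mul, abs_of_nonneg (P_nonneg hw i k n)]
      calc P b w i k n * |G n| ≤ P b w i k n * 1 := mul_le_mul_of_nonneg_left (hG n) (P_nonneg hw i k n)
        _ = _ := mul_one _)
    (fun n => φ.eval (n : ℤ)) f N M R (by omega) hNM hφ (by omega) q C hmom' _ hS (P_sum (by omega) hw i k).le (1 / (k : ℝ) ^ V) (by positivity)
  have hY0 : (0 : ℝ) < Y := by exact_mod_cast hY1
  have hN0 : (0 : ℝ) < N := by exact_mod_cast (by omega : 0 < N)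
  have hM0 : (0 : ℝ) < M := by exact_mod_cast (by omega : 0 < M)
  have hNMr : (N : ℝ) ≤ M := by exact_mod_cast hNM
  have hNr : (N : ℝ) = F₁ * Y := by rw [hN]; push_cast; ring
  have hf2 : ∑ n ∈ Icc 1 N, f n ^ 2 ≤ N := by
    calc ∑ n ∈ Icc 1 N, f n ^ 2 ≤ ∑ _n ∈ Icc 1 N, (1 : ℝ) := by
          apply sum_le_sum
          intro n _
          rw [← sq_abs]
          exact pow_le_one₀ (abs_nonneg _) (hf1 n)
      _ = N := by rw [sum_const, Nat.card_Icc, Nat.add_sub_cancel, nsmul_eq_mul, mul_one]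
  -- the second moment
  have h2 : ∑ c ∈ Icc (-(R : ℤ)) R, (∑ n ∈ range (b ^ k), P b w i k n * G n * cut f N (φ.eval (n : ℤ) + c)) ^ 2 ≤
      N * (1 + C * F₁) / (k : ℝ) ^ (2 * U + 1) := by
    have e1 : M * ∑ c ∈ Icc (-(R : ℤ)) R, (∑ n ∈ range (b ^ k), P b w i k n * G n * cut f N (φ.eval (n : ℤ) + c)) ^ 2 ≤
        M * (N * (1 + C * F₁) / (k : ℝ) ^ (2 * U + 1)) := by
      refine key.trans ?_
      have a1 : (1 / (k : ℝ) ^ V) ^ 2 * (M * ∑ n ∈ Icc 1 N, f n ^ 2) ≤ M * (N * 1 / (k : ℝ) ^ (2 * U + 1)) := by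
        calc (1 / (k : ℝ) ^ V) ^ 2 * (M * ∑ n ∈ Icc 1 N, f n ^ 2) ≤ (1 / (k : ℝ) ^ V) ^ 2 * (M * N) := by
              apply mul_le_mul_of_nonneg_left _ (by positivity)
              exact mul_le_mul_of_nonneg_left hf2 hM0.le
          _ = M * (N * (1 / (k : ℝ) ^ (2 * V))) := by
              rw [div_pow, one_pow, ← pow_mul, mul_comm V 2]
              field_simp
          _ ≤ M * (N * (1 / (k : ℝ) ^ (2 * U + 1))) := by
              apply mul_le_mul_of_nonneg_left _ hM0.le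
              apply mul_le_mul_of_nonneg_left _ hN0.le
              apply one_div_le_one_div_of_le (by positivity)
              exact pow_le_pow_right₀ hk1 (by omega)
          _ = _ := by ring
      have a2 : C / (1 / (k : ℝ) ^ V) ^ (2 * q) * ((N : ℝ) / (k : ℝ) ^ (q * V + U + 1)) ^ 2 ≤ M * (N * (C * F₁) / (k : ℝ) ^ (2 * U + 1)) := by
        calc C / (1 / (k : ℝ) ^ V) ^ (2 * q) * ((N : ℝ) / (k : ℝ) ^ (q * V + U + 1)) ^ 2 =
            C * (N * N) * ((k : ℝ) ^ (V * (2 * q)) / (k : ℝ) ^ ((q * V + U + 1) * 2)) := by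
              rw [div_pow, div_pow, one_pow, ← pow_mul, ← pow_mul]
              field_simp
          _ ≤ C * (N * N) * (1 / (k : ℝ) ^ (2 * U + 1)) := by
              apply mul_le_mul_of_nonneg_left _ (by positivity)
              rw [div_le_div_iff₀ (by positivity) (by positivity), one_mul, ← pow_add]
              exact pow_le_pow_right₀ hk1 (by ring_nf; omega)
          _ ≤ C * (M * N * F₁) * (1 / (k : ℝ) ^ (2 * U + 1)) := by
              apply mul_le_mul_of_nonneg_right _ (by positivity)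
              apply mul_le_mul_of_nonneg_left _ hC0.le
              have f1 : (1 : ℝ) ≤ F₁ := by exact_mod_cast (by omega : 1 ≤ F₁)
              have f2 : (N : ℝ) * N ≤ M * N := mul_le_mul_of_nonneg_right hNMr hN0.le
              have f3 : (M : ℝ) * N * 1 ≤ M * N * F₁ := mul_le_mul_of_nonneg_left f1 (by positivity)
              linarith
          _ = _ := by ring
      calc _ ≤ M * (N * 1 / (k : ℝ) ^ (2 * U + 1)) + M * (N * (C * F₁) / (k : ℝ) ^ (2 * U + 1)) := add_le_add a1 a2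
        _ = _ := by ring
    exact le_of_mul_le_mul_left e1 hM0
  -- Cauchy
  obtain ⟨τ, hτ⟩ : ∃ τ : ℤ → ℝ, ∀ c, τ c = |∑ n ∈ range (b ^ k), P b w i k n * (G n * cut f N (φ.eval (n : ℤ) + c))| := ⟨_, fun _ => rfl⟩
  simp only [← hτ]
  have hXc : ((Icc (-(X : ℤ)) X).card : ℝ) ≤ (2 * F₀ + 1) * Y := by
    rw [Int.card_Icc]
    have e1 : ((X : ℤ) + 1 - -(X : ℤ)).toNat = 2 * X + 1 := by omega
    rw [e1]
    have e2 : 2 * X + 1 ≤ (2 * F₀ + 1) * Y := by nlinarith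
    exact_mod_cast e2
  have h3 : (∑ c ∈ Icc (-(X : ℤ)) X, τ c) ^ 2 ≤ ((2 * F₀ + 1) * Y) * ∑ c ∈ Icc (-(X : ℤ)) X, τ c ^ 2 := by
    have h4 := sq_sum_le_card_mul_sum_sq (s := Icc (-(X : ℤ)) X) (f := τ)
    exact h4.trans (mul_le_mul_of_nonneg_right hXc (sum_nonneg fun _ _ => sq_nonneg _))
  have h4 : ∑ c ∈ Icc (-(X : ℤ)) X, τ c ^ 2 ≤ ∑ c ∈ Icc (-(R : ℤ)) R, (∑ n ∈ range (b ^ k), P b w i k n * G n * cut f N (φ.eval (n : ℤ) + c)) ^ 2 := by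
    have e1 : ∀ c ∈ Icc (-(X : ℤ)) X, τ c ^ 2 = (∑ n ∈ range (b ^ k), P b w i k n * G n * cut f N (φ.eval (n : ℤ) + c)) ^ 2 := by
      intro c _
      rw [hτ, sq_abs]
      congr 1
      apply sum_congr rfl
      intro n _
      ring
    rw [sum_congr rfl e1]
    apply sum_le_sum_of_subset_of_nonneg
    · intro c hc
      rw [mem_Icc] at hc ⊢
      have : X ≤ R := by
        rw [hR]
        exact hX.trans (Nat.mul_le_mul_right _ (by omega))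
      constructor <;> omega
    · intro c _ _
      exact sq_nonneg _
  have h5 : (∑ c ∈ Icc (-(X : ℤ)) X, τ c) ^ 2 ≤ ((Y : ℝ) / (k : ℝ) ^ U) ^ 2 := by
    refine h3.trans ?_
    calc ((2 * F₀ + 1) * Y : ℝ) * ∑ c ∈ Icc (-(X : ℤ)) X, τ c ^ 2 ≤ ((2 * F₀ + 1) * Y) * (N * (1 + C * F₁) / (k : ℝ) ^ (2 * U + 1)) :=
          mul_le_mul_of_nonneg_left (h4.trans h2) (by positivity)
      _ = Y ^ 2 * (((2 * F₀ + 1) * F₁ * (1 + C * F₁)) / k) / (k : ℝ) ^ (2 * U) := by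
          rw [hNr, pow_succ (k : ℝ) (2 * U)]
          field_simp
      _ ≤ Y ^ 2 * 1 / (k : ℝ) ^ (2 * U) := by
          apply div_le_div_of_nonneg_right _ (by positivity)
          apply mul_le_mul_of_nonneg_left _ (by positivity)
          rw [div_le_one hkr]
          refine hK2.trans ?_
          exact_mod_cast (by omega : K2 ≤ k)
      _ = _ := by rw [div_pow, ← pow_mul, mul_comm 2 U, mul_one]
  exact (pow_le_pow_iff_left₀ (sum_nonneg fun c _ => by rw [hτ]; exact abs_nonneg _) (by positivity) two_ne_zero).1 h5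

/-- one shift for a nice function, positive part -/
theorem nice_pos (b : ℕ) (hb : 2 ≤ b) (η : ℝ) (hη : 0 < η) (j : ℕ) (κ : ℤ) (hκ : κ ≠ 0) (f : ℕ → ℝ)
    (hf : Nice (fun n => ((f n : ℝ) : ℂ))) (B F₀ U : ℕ) :
    ∃ K₀ : ℕ, ∀ k : ℕ, K₀ ≤ k → ∀ w : ℕ → ℕ → ℝ, Dig b η w → ∀ i : ℕ, ∀ φ : ℤ[X], φ.natDegree ≤ j + 2 → φ.coeff (j + 2) = κ →
    (∀ n < b ^ k, |φ.eval (n : ℤ)| ≤ (B : ℤ) * (b : ℤ) ^ ((j + 2) * k)) → ∀ X : ℕ, X ≤ F₀ * b ^ ((j + 2) * k) →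
    ∀ G : ℕ → ℝ, (∀ n, |G n| ≤ 1) →
    ∑ c ∈ Icc (-(X : ℤ)) X, |∑ n ∈ range (b ^ k), P b w i k n * (G n * fx f (φ.eval (n : ℤ) + c))| ≤
      ((b ^ ((j + 2) * k) : ℕ) : ℝ) / (k : ℝ) ^ U := by
  obtain ⟨U0, K1, h1⟩ := core b hb η hη j κ hκ B F₀ U
  obtain ⟨N0, h2⟩ := hf.2.1 U0
  obtain ⟨K2, h3⟩ := log_bounds b (F₀ + B + 1) hb (by omega)
  refine ⟨K1 + K2 + N0 + 1, fun k hk w hw i φ hφd hφκ hφB X hX G hG => ?_⟩
  have hf1 : ∀ n, |f n| ≤ 1 := by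
    intro n
    have := hf.1 n
    rwa [Complex.norm_real, Real.norm_eq_abs] at this
  obtain ⟨N, hN⟩ : ∃ N, N = (F₀ + B + 1) * b ^ ((j + 2) * k) := ⟨_, rfl⟩
  have hN2 : (F₀ + B + 1) * b ^ (2 * k) ≤ N := by
    rw [hN]
    apply Nat.mul_le_mul_left
    apply Nat.pow_le_pow_right (by omega)
    exact Nat.mul_le_mul_right _ (by omega)
  have hl := (h3 k (by omega)).1
  have hpos : 0 < (F₀ + B + 1) * b ^ (2 * k) := by positivity
  have hl2 : (k : ℝ) ≤ Real.log N := by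
    refine hl.trans ?_
    apply Real.log_le_log (by exact_mod_cast hpos)
    exact_mod_cast hN2
  have hkN : k ≤ N := by
    refine le_trans ?_ hN2
    calc k ≤ 2 * k := by omega
      _ ≤ b ^ (2 * k) := (Nat.lt_pow_self (by omega)).le
      _ ≤ _ := Nat.le_mul_of_pos_left _ (by omega)
  have hkr : (1 : ℝ) ≤ k := by exact_mod_cast (by omega : 1 ≤ k)
  have hk0 : (0 : ℝ) < k := by linarith
  have key := h1 k (by omega) w hw i φ hφd hφκ hφB X hX f hf1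
  rw [← hN] at key
  have key2 := key (by
    intro α
    refine (h2 N (by omega) α).trans ?_
    apply div_le_div_of_nonneg_left (Nat.cast_nonneg _) (by positivity)
    exact pow_le_pow_left₀ hk0.le hl2 U0) G hG
  refine le_trans (le_of_eq ?_) key2
  apply sum_congr rfl
  intro c hc
  rw [mem_Icc] at hc
  congr 1
  apply sum_congr rfl
  intro n hn
  have h4 : φ.eval (n : ℤ) + c ≤ N := by
    have h5 := hφB n (mem_range.1 hn)
    have h6 := le_abs_self (φ.eval (n : ℤ))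
    have h7 : (X : ℤ) ≤ (F₀ : ℤ) * (b : ℤ) ^ ((j + 2) * k) := by exact_mod_cast hX
    have h8 : (0 : ℤ) ≤ (b : ℤ) ^ ((j + 2) * k) := by positivity
    rw [hN]
    push_cast
    linarith [hc.2]
  rw [cut_fx f _ _ h4]

/-- one shift for the even extension of a nice function -/
theorem nice_ev (b : ℕ) (hb : 2 ≤ b) (j : ℕ) (κ : ℤ) (hκ : κ ≠ 0) (f : ℕ → ℝ)
    (hf : Nice (fun n => ((f n : ℝ) : ℂ))) (B F₀ U : ℕ) :
    ∃ K₀ : ℕ, ∀ k : ℕ, K₀ ≤ k → ∀ D : ℕ → Finset ℕ, (∀ i < k, D i ⊆ range b ∧ 2 ≤ (D i).card) →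
    ∀ φ : ℤ[X], φ.natDegree ≤ j + 2 → φ.coeff (j + 2) = κ →
    (∀ n < b ^ k, |φ.eval (n : ℤ)| ≤ (B : ℤ) * (b : ℤ) ^ ((j + 2) * k)) → ∀ X : ℕ, X ≤ F₀ * b ^ ((j + 2) * k) →
    ∀ G : ℕ → ℝ, (∀ n, |G n| ≤ 1) →
    ∑ c ∈ Icc (-(X : ℤ)) X, |1 / ((SD b D k).card : ℝ) * ∑ n ∈ SD b D k, G n * ev f (φ.eval (n : ℤ) + c)| ≤
      ((b ^ ((j + 2) * k) : ℕ) : ℝ) / (k : ℝ) ^ U := by
  classical
  obtain ⟨K1, h1⟩ := nice_pos b hb (1 / 2) (by norm_num) j κ hκ f hf B F₀ (U + 1)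
  obtain ⟨K2, h2⟩ := nice_pos b hb (1 / 2) (by norm_num) j (-κ) (neg_ne_zero.2 hκ) f hf B F₀ (U + 1)
  refine ⟨K1 + K2 + 2, fun k hk D hD φ hφd hφκ hφB X hX G hG => ?_⟩
  have hw := dig_wD b hb D k hD
  have e1 := h1 k (by omega) (wD D k) hw 0 φ hφd hφκ hφB X hX G hG
  have e2 := h2 k (by omega) (wD D k) hw 0 (-φ) (by rw [natDegree_neg]; exact hφd) (by rw [coeff_neg, hφκ])
    (by intro n hn; rw [eval_neg, abs_neg]; exact hφB n hn) X hX G hG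
  obtain ⟨a, ha⟩ : ∃ a : ℤ → ℝ, ∀ c, a c = |∑ n ∈ range (b ^ k), P b (wD D k) 0 k n * (G n * fx f (φ.eval (n : ℤ) + c))| := ⟨_, fun _ => rfl⟩
  obtain ⟨a', ha'⟩ : ∃ a' : ℤ → ℝ, ∀ c, a' c = |∑ n ∈ range (b ^ k), P b (wD D k) 0 k n * (G n * fx f ((-φ).eval (n : ℤ) + c))| := ⟨_, fun _ => rfl⟩
  simp only [← ha] at e1
  simp only [← ha'] at e2
  have h3 : ∀ c ∈ Icc (-(X : ℤ)) X, |1 / ((SD b D k).card : ℝ) * ∑ n ∈ SD b D k, G n * ev f (φ.eval (n : ℤ) + c)| ≤ a c + a' (-c) := by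
    intro c _
    rw [← sum_wD b hb D k hD, ha, ha']
    refine le_trans (le_of_eq ?_) (abs_add_le _ _)
    rw [← sum_add_distrib]
    congr 1
    apply sum_congr rfl
    intro n _
    rw [ev_fx, eval_neg, show -(eval (n : ℤ) φ + c) = -eval (n : ℤ) φ + -c by ring]
    ring
  refine (sum_le_sum h3).trans ?_
  rw [sum_add_distrib]
  have h4 : ∑ c ∈ Icc (-(X : ℤ)) X, a' (-c) = ∑ c ∈ Icc (-(X : ℤ)) X, a' c := by
    apply sum_nbij' (fun c => -c) (fun c => -c)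
    · intro c hc; rw [mem_Icc] at hc ⊢; constructor <;> omega
    · intro c hc; rw [mem_Icc] at hc ⊢; constructor <;> omega
    · intro c _; ring
    · intro c _; ring
    · intro c _; rfl
  rw [h4]
  have hk2 : (2 : ℝ) ≤ k := by exact_mod_cast (by omega : 2 ≤ k)
  have hk0 : (0 : ℝ) < k := by linarith
  refine (add_le_add e1 e2).trans ?_
  rw [pow_succ, ← div_div]
  obtain ⟨z, hz⟩ : ∃ z : ℝ, z = ((b ^ ((j + 2) * k) : ℕ) : ℝ) / (k : ℝ) ^ U := ⟨_, rfl⟩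
  have hz0 : 0 ≤ z := by rw [hz]; positivity
  rw [← hz]
  calc z / k + z / k = z * (2 / k) := by ring
    _ ≤ z * 1 := mul_le_mul_of_nonneg_left (by rw [div_le_one hk0]; exact hk2) hz0
    _ = z := mul_one z

end Pool.Agent.T9h51.CH
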